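import Pool.Agent.Q175.DP.Conc

/-!
# Weak compactness of a Dyson–Phillips term does not propagate for unbounded perturbations

The setting (`Pool.Agent.Q175.DP.Setting`): a substochastic `C₀`-semigroup `U` on `L¹(ν)` with
generator `T`, a positive `T`-bounded `B : D(T) → L¹(ν)` with `r(B(l - T)⁻¹) < 1` for large `l`,
and the Dyson–Phillips terms `W j t = U_j(t)`.

For every `n ≥ 1` there is such a setting in which `U_n(t)` is compact for every `t ≥ 0`, while
`U_{2n+1}(t)` is not compact for any `t > 0` and `t ↦ U_{2n+2}(t)` is not norm continuous at any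
`t ≥ 0`. So the implication asked for in Q1 fails.

The example: a countable family of finite Poisson chains of rate `K⁴`, `K = 1, 2, 3, …`, on the
`L¹` space of a counting measure. In block `K` the jumps of `B` occur at `2n+1` consecutive
states after a run-up of length `K⁵`, and once more after a window of length `K³`. As
`(K⁴)^{1/2} ≪ K³ ≪ K⁴`, the window is long for the fluctuations of the Poisson clock and short
for the clock itself.
-/

open MeasureTheory Filter Topology
open Pool.Agent.Q175.DP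

namespace Pool.Agent.Results.MP_c2298c_an.DysonPhillips

/-- The implication of Q1 in one setting and for one `n`. -/
def Implication {Ω : Type} [MeasurableSpace Ω] {ν : Measure Ω} (D : Setting ν) (n : ℕ) : Prop :=
  (∀ t : ℝ, 0 ≤ t → WeaklyCompactOp (D.W n t)) →
    (∀ t : ℝ, 0 ≤ t → IsCompactOperator (D.W (2 * n + 1) t)) ∧
      ContinuousOn (D.W (2 * n + 2)) (Set.Ici 0)

lemma diff_lower (n e : ℕ) (he : e ≤ 1) {t t' : ℝ} (ht : 0 < t) (ht' : 0 ≤ t') (hne : t' ≠ t) :
    (1 / 4 : ℝ) ^ (2 * n + 1 + e) * (1 / 2) ≤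
      ‖(PP n).W (2 * n + 1 + e) t - (PP n).W (2 * n + 1 + e) t'‖ := by
  obtain ⟨k, q, -, hq⟩ := (main_lower n e he ht ht' hne).exists
  have h1 : (PP n).W (2 * n + 1 + e) t - (PP n).W (2 * n + 1 + e) t' =
      (1 / 4 : ℝ) ^ (2 * n + 1 + e) •
        ((PP n).K (2 * n + 1 + e) t - (PP n).K (2 * n + 1 + e) t') := by
    unfold Par.W
    rw [smul_sub]
  rw [h1, norm_smul, Real.norm_of_nonneg (by positivity)]
  refine mul_le_mul_of_nonneg_left ?_ (by positivity)
  refine hq.trans ?_
  have h2 := ((PP n).K (2 * n + 1 + e) t - (PP n).K (2 * n + 1 + e) t').le_opNorm (bas q)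
  rw [norm_bas, mul_one] at h2
  exact h2

lemma not_compact (n : ℕ) {t : ℝ} (ht : 0 < t) :
    ¬ IsCompactOperator ((PP n).W (2 * n + 1) t) := by
  intro h
  have h1 : (PP n).K (2 * n + 1) t = (4 : ℝ) ^ (2 * n + 1) • (PP n).W (2 * n + 1) t := by
    unfold Par.W
    rw [smul_smul, ← mul_pow]
    norm_num
  have h2 : IsCompactOperator ((PP n).K (2 * n + 1) t) := by
    rw [h1]
    exact h.smul ((4 : ℝ) ^ (2 * n + 1))
  refine not_compact_of_blocks ((PP n).K (2 * n + 1) t) (δ := 1 / 2) (by norm_num) ?_ ?_ h2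
  · filter_upwards [main_lower n 0 (by norm_num) ht le_rfl ht.ne] with k hk
    obtain ⟨q, hq, hq2⟩ := hk
    refine ⟨q, hq, ?_⟩
    rw [add_zero, (PP n).K_succ_zero (2 * n)] at hq2
    simpa using hq2
  · intro q k' i hk hi
    rw [(PP n).bl_K_bas (2 * n + 1) ht.le q k' i hi, if_neg]
    exact fun h => hk h.1.symm

lemma not_cont (n : ℕ) {t : ℝ} (ht : 0 ≤ t) :
    ¬ ContinuousWithinAt ((PP n).W (2 * n + 2)) (Set.Ici 0) t := by
  intro h
  rw [Metric.continuousWithinAt_iff] at h
  obtain ⟨δ, hδ, hδ2⟩ := h ((1 / 4 : ℝ) ^ (2 * n + 1 + 1) * (1 / 2)) (by positivity)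
  have h1 := hδ2 (x := t + δ / 2) (Set.mem_Ici.2 (by positivity)) (by
    rw [Real.dist_eq, add_sub_cancel_left, abs_of_pos (by positivity)]
    linarith)
  have h2 := diff_lower n 1 le_rfl (t := t + δ / 2) (t' := t) (by positivity) ht (by linarith)
  rw [dist_eq_norm] at h1
  exact absurd h1 (not_lt.2 h2)

/-- **Main result.** For every `n ≥ 1` there is a setting in which every `U_n(t)`, `t ≥ 0`, is
compact (hence weakly compact), no `U_{2n+1}(t)`, `t > 0`, is compact, and `t ↦ U_{2n+2}(t)` is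
norm continuous at no point of `[0, ∞)`. In particular the implication of Q1 is false. -/
theorem result :
    (∀ n : ℕ, 1 ≤ n → ∃ (Ω : Type) (_ : MeasurableSpace Ω) (ν : Measure Ω) (D : Setting ν),
      (∀ t : ℝ, 0 ≤ t → IsCompactOperator (D.W n t) ∧ WeaklyCompactOp (D.W n t)) ∧
      (∀ t : ℝ, 0 < t → ¬ IsCompactOperator (D.W (2 * n + 1) t)) ∧
      (∀ t : ℝ, 0 ≤ t → ¬ ContinuousWithinAt (D.W (2 * n + 2)) (Set.Ici 0) t)) ∧
    ¬ (∀ (Ω : Type) (_ : MeasurableSpace Ω) (ν : Measure Ω) (D : Setting ν) (n : ℕ),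
      Implication D n) := by
  have key : ∀ n : ℕ, 1 ≤ n → ∃ (Ω : Type) (_ : MeasurableSpace Ω) (ν : Measure Ω)
      (D : Setting ν),
      (∀ t : ℝ, 0 ≤ t → IsCompactOperator (D.W n t) ∧ WeaklyCompactOp (D.W n t)) ∧
      (∀ t : ℝ, 0 < t → ¬ IsCompactOperator (D.W (2 * n + 1) t)) ∧
      (∀ t : ℝ, 0 ≤ t → ¬ ContinuousWithinAt (D.W (2 * n + 2)) (Set.Ici 0) t) := by
    intro n hn
    refine ⟨Om (PP n).N, inferInstance, Measure.count, (PP n).setting, ?_, ?_, ?_⟩
    · intro t ht
      have h : IsCompactOperator ((PP n).W n t) := by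
        unfold Par.W
        exact (compact_r n hn ht).smul ((1 / 4 : ℝ) ^ n)
      exact ⟨h, weaklyCompactOp_of_compact h⟩
    · intro t ht
      exact not_compact n ht
    · intro t ht
      exact not_cont n ht
  refine ⟨key, fun hall => ?_⟩
  obtain ⟨Ω, hΩ, ν, D, h1, h2, -⟩ := key 1 le_rfl
  exact h2 1 one_pos ((hall Ω hΩ ν D 1 (fun t ht => (h1 t ht).2)).1 1 zero_le_one)

end Pool.Agent.Results.MP_c2298c_an.DysonPhillips
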